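import Mathlib

set_option autoImplicit false

namespace Pool.Agent.Lib.Helper22

/-- Tangency defect of the balls with centres `a`, `b` and radii `r`, `s`. -/
def T (a b : Fin 3 → ℝ) (r s : ℝ) : ℝ := (∑ k, (a k - b k) ^ 2) - (r + s) ^ 2

/-- Inversive pairing of two balls on the same side. -/
def G (a b : Fin 3 → ℝ) (r s : ℝ) : ℝ := (∑ k, (a k - b k) ^ 2) - (r - s) ^ 2

/-- Neighbour table of the vertex balls of the combinatorial cube: vertex `x + 2y + 4z` touches the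
balls `0`, `1` and the face balls `2 + x`, `4 + y`, `6 + z`. -/
def nb : Fin 8 → Fin 5 → Fin 8 :=
  ![![0, 1, 2, 4, 6], ![0, 1, 3, 4, 6], ![0, 1, 2, 5, 6], ![0, 1, 3, 5, 6],
    ![0, 1, 2, 4, 7], ![0, 1, 3, 4, 7], ![0, 1, 2, 5, 7], ![0, 1, 3, 5, 7]]

theorem exists_rep (A : Fin 4 → Fin 3 → ℝ) (ρ : Fin 4 → ℝ) (a : Fin 3 → ℝ) (r : ℝ)
    (d d' : Fin 3 → ℝ) (s s' : ℝ) (hd : d ≠ d')
    (hY : ∀ i, T (A i) d (ρ i) s = 0) (hY' : ∀ i, T (A i) d' (ρ i) s' = 0)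
    (h : T a d r s = 0) (h' : T a d' r s' = 0)
    (X : Fin 3 → Fin 3 → ℝ) (σ : Fin 3 → ℝ)
    (h11 : T (A 1) (X 0) (ρ 1) (σ 0) ≠ 0) (h22 : T (A 2) (X 1) (ρ 2) (σ 1) ≠ 0)
    (h33 : T (A 3) (X 2) (ρ 3) (σ 2) ≠ 0)
    (h01 : T (A 0) (X 0) (ρ 0) (σ 0) = 0) (h02 : T (A 0) (X 1) (ρ 0) (σ 1) = 0)
    (h03 : T (A 0) (X 2) (ρ 0) (σ 2) = 0)
    (h12 : T (A 1) (X 1) (ρ 1) (σ 1) = 0) (h13 : T (A 1) (X 2) (ρ 1) (σ 2) = 0)
    (h21 : T (A 2) (X 0) (ρ 2) (σ 0) = 0) (h23 : T (A 2) (X 2) (ρ 2) (σ 2) = 0)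
    (h31 : T (A 3) (X 0) (ρ 3) (σ 0) = 0) (h32 : T (A 3) (X 1) (ρ 3) (σ 1) = 0) :
    ∃ x : Fin 4 → ℝ,
      (∀ (b : Fin 3 → ℝ) (t : ℝ), T a b r t = x 0 * T (A 0) b (ρ 0) t + x 1 * T (A 1) b (ρ 1) t
        + x 2 * T (A 2) b (ρ 2) t + x 3 * T (A 3) b (ρ 3) t) ∧
      x 0 * x 1 * G (A 0) (A 1) (ρ 0) (ρ 1) + x 0 * x 2 * G (A 0) (A 2) (ρ 0) (ρ 2)
        + x 0 * x 3 * G (A 0) (A 3) (ρ 0) (ρ 3) + x 1 * x 2 * G (A 1) (A 2) (ρ 1) (ρ 2)
        + x 1 * x 3 * G (A 1) (A 3) (ρ 1) (ρ 3) + x 2 * x 3 * G (A 2) (A 3) (ρ 2) (ρ 3) = 0 := by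
  classical
  let M : Matrix (Fin 5) (Fin 5) ℝ :=
    !![a 0, a 1, a 2, r, 1;
       A 0 0, A 0 1, A 0 2, ρ 0, 1;
       A 1 0, A 1 1, A 1 2, ρ 1, 1;
       A 2 0, A 2 1, A 2 2, ρ 2, 1;
       A 3 0, A 3 1, A 3 2, ρ 3, 1]
  let D : Fin 5 → ℝ := ![-2 * (d 0 - d' 0), -2 * (d 1 - d' 1), -2 * (d 2 - d' 2), -2 * (s - s'),
    (d 0 ^ 2 + d 1 ^ 2 + d 2 ^ 2 - s ^ 2) - (d' 0 ^ 2 + d' 1 ^ 2 + d' 2 ^ 2 - s' ^ 2)]
  have hT0 := h
  have hT0' := h'
  have hA0 := hY 0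
  have hA1 := hY 1
  have hA2 := hY 2
  have hA3 := hY 3
  have hB0 := hY' 0
  have hB1 := hY' 1
  have hB2 := hY' 2
  have hB3 := hY' 3
  simp only [T, Fin.sum_univ_three] at hT0 hT0' hA0 hA1 hA2 hA3 hB0 hB1 hB2 hB3
  have hMD : M.mulVec D = 0 := by
    funext i
    fin_cases i
    · simp [M, D, Matrix.mulVec, dotProduct, Fin.sum_univ_succ]
      linear_combination hT0 - hT0'
    · simp [M, D, Matrix.mulVec, dotProduct, Fin.sum_univ_succ]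
      linear_combination hA0 - hB0
    · simp [M, D, Matrix.mulVec, dotProduct, Fin.sum_univ_succ]
      linear_combination hA1 - hB1
    · simp [M, D, Matrix.mulVec, dotProduct, Fin.sum_univ_succ]
      linear_combination hA2 - hB2
    · simp [M, D, Matrix.mulVec, dotProduct, Fin.sum_univ_succ]
      linear_combination hA3 - hB3
  have hD : D ≠ 0 := by
    intro hD
    apply hd
    funext k
    have h0 := congrFun hD 0
    have h1 := congrFun hD 1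
    have h2 := congrFun hD 2
    simp [D] at h0 h1 h2
    fin_cases k
    · simp; linarith
    · simp; linarith
    · simp; linarith
  have hdet : M.det = 0 := Matrix.exists_mulVec_eq_zero_iff.1 ⟨D, hD, hMD⟩
  obtain ⟨g, hg, hgM⟩ := Matrix.exists_vecMul_eq_zero_iff.2 hdet
  have e0 := congrFun hgM 0
  have e1 := congrFun hgM 1
  have e2 := congrFun hgM 2
  have e3 := congrFun hgM 3
  have e4 := congrFun hgM 4
  simp [M, Matrix.vecMul, dotProduct, Fin.sum_univ_succ] at e0 e1 e2 e3 e4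
  -- universal linear relation
  have hlin : ∀ (b : Fin 3 → ℝ) (t : ℝ), g 0 * T a b r t + g 1 * T (A 0) b (ρ 0) t
      + g 2 * T (A 1) b (ρ 1) t + g 3 * T (A 2) b (ρ 2) t + g 4 * T (A 3) b (ρ 3) t = 0 := by
    intro b t
    simp only [T, Fin.sum_univ_three]
    linear_combination g 0 * hT0 + g 1 * hA0 + g 2 * hA1 + g 3 * hA2 + g 4 * hA3
      - 2 * (b 0 - d 0) * e0 - 2 * (b 1 - d 1) * e1 - 2 * (b 2 - d 2) * e2 - 2 * (t - s) * e3
      + ((b 0 ^ 2 + b 1 ^ 2 + b 2 ^ 2 - t ^ 2) - (d 0 ^ 2 + d 1 ^ 2 + d 2 ^ 2 - s ^ 2)) * e4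
  have hg0 : g 0 ≠ 0 := by
    intro hz
    have r1 := hlin (X 0) (σ 0)
    have r2 := hlin (X 1) (σ 1)
    have r3 := hlin (X 2) (σ 2)
    rw [hz, h01, h21, h31] at r1
    rw [hz, h02, h12, h32] at r2
    rw [hz, h03, h13, h23] at r3
    have g2 : g 2 = 0 := by
      have : g 2 * T (A 1) (X 0) (ρ 1) (σ 0) = 0 := by linarith
      rcases mul_eq_zero.1 this with h | h
      · exact h
      · exact absurd h h11
    have g3 : g 3 = 0 := by
      have : g 3 * T (A 2) (X 1) (ρ 2) (σ 1) = 0 := by linarith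
      rcases mul_eq_zero.1 this with h | h
      · exact h
      · exact absurd h h22
    have g4 : g 4 = 0 := by
      have : g 4 * T (A 3) (X 2) (ρ 3) (σ 2) = 0 := by linarith
      rcases mul_eq_zero.1 this with h | h
      · exact h
      · exact absurd h h33
    have g1 : g 1 = 0 := by linarith
    apply hg
    funext i
    fin_cases i <;> simp [hz, g1, g2, g3, g4]
  refine ⟨![-g 1 / g 0, -g 2 / g 0, -g 3 / g 0, -g 4 / g 0], ?_, ?_⟩
  · intro b t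
    have := hlin b t
    simp
    field_simp
    linarith
  · have hx : ∃ x0 x1 x2 x3 : ℝ, x0 = -g 1 / g 0 ∧ x1 = -g 2 / g 0 ∧ x2 = -g 3 / g 0 ∧
        x3 = -g 4 / g 0 := ⟨_, _, _, _, rfl, rfl, rfl, rfl⟩
    obtain ⟨x0, x1, x2, x3, hx0, hx1, hx2, hx3⟩ := hx
    have f0 : a 0 = x0 * A 0 0 + x1 * A 1 0 + x2 * A 2 0 + x3 * A 3 0 := by
      rw [hx0, hx1, hx2, hx3]; field_simp; linarith
    have f1 : a 1 = x0 * A 0 1 + x1 * A 1 1 + x2 * A 2 1 + x3 * A 3 1 := by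
      rw [hx0, hx1, hx2, hx3]; field_simp; linarith
    have f2 : a 2 = x0 * A 0 2 + x1 * A 1 2 + x2 * A 2 2 + x3 * A 3 2 := by
      rw [hx0, hx1, hx2, hx3]; field_simp; linarith
    have f3 : r = x0 * ρ 0 + x1 * ρ 1 + x2 * ρ 2 + x3 * ρ 3 := by
      rw [hx0, hx1, hx2, hx3]; field_simp; linarith
    have f4 : 1 = x0 + x1 + x2 + x3 := by
      rw [hx0, hx1, hx2, hx3]; field_simp; linarith
    have f5 : a 0 ^ 2 + a 1 ^ 2 + a 2 ^ 2 - r ^ 2 =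
        x0 * (A 0 0 ^ 2 + A 0 1 ^ 2 + A 0 2 ^ 2 - ρ 0 ^ 2)
        + x1 * (A 1 0 ^ 2 + A 1 1 ^ 2 + A 1 2 ^ 2 - ρ 1 ^ 2)
        + x2 * (A 2 0 ^ 2 + A 2 1 ^ 2 + A 2 2 ^ 2 - ρ 2 ^ 2)
        + x3 * (A 3 0 ^ 2 + A 3 1 ^ 2 + A 3 2 ^ 2 - ρ 3 ^ 2) := by
      have hz := hlin 0 0
      simp only [T, Fin.sum_univ_three, Pi.zero_apply, sub_zero, add_zero] at hz
      rw [hx0, hx1, hx2, hx3]; field_simp; linarith
    simp only [Matrix.cons_val_zero, Matrix.cons_val_one, Matrix.cons_val, ← hx0, ← hx1, ← hx2,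
      ← hx3]
    simp only [G, Fin.sum_univ_three]
    have key : a 0 ^ 2 + a 1 ^ 2 + a 2 ^ 2 - r ^ 2 =
        (x0 * A 0 0 + x1 * A 1 0 + x2 * A 2 0 + x3 * A 3 0) ^ 2
        + (x0 * A 0 1 + x1 * A 1 1 + x2 * A 2 1 + x3 * A 3 1) ^ 2
        + (x0 * A 0 2 + x1 * A 1 2 + x2 * A 2 2 + x3 * A 3 2) ^ 2
        - (x0 * ρ 0 + x1 * ρ 1 + x2 * ρ 2 + x3 * ρ 3) ^ 2 := by
      rw [← f0, ← f1, ← f2, ← f3]
    linear_combination key - f5 - (x0 * (A 0 0 ^ 2 + A 0 1 ^ 2 + A 0 2 ^ 2 - ρ 0 ^ 2)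
        + x1 * (A 1 0 ^ 2 + A 1 1 ^ 2 + A 1 2 ^ 2 - ρ 1 ^ 2)
        + x2 * (A 2 0 ^ 2 + A 2 1 ^ 2 + A 2 2 ^ 2 - ρ 2 ^ 2)
        + x3 * (A 3 0 ^ 2 + A 3 1 ^ 2 + A 3 2 ^ 2 - ρ 3 ^ 2)) * f4

/-- Algebraic heart of one face: the relation between the inversive pairings forced by the fourth
vertex of a face. -/
theorem face_relation (x0 x1 x2 u0 u2 v0 v1 g01 g02 g12 : ℝ)
    (hx2 : x2 ≠ 0) (hu2 : u2 ≠ 0)
    (hu : x0 * u0 + x2 * u2 = 0) (hv : x0 * v0 + x1 * v1 = 0)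
    (hq : x0 * x1 * g01 + x0 * x2 * g02 + x1 * x2 * g12 = 0) :
    g12 * u0 * v0 = g01 * u2 * v0 + g02 * v1 * u0 := by
  have hx0 : x0 ≠ 0 := by
    intro h
    rw [h] at hu
    have : x2 * u2 = 0 := by linarith
    rcases mul_eq_zero.1 this with h | h
    · exact hx2 h
    · exact hu2 h
  have : x0 ^ 2 * (g12 * u0 * v0 - (g01 * u2 * v0 + g02 * v1 * u0)) = 0 := by
    linear_combination (u2 * v1) * hq + (-x0 * g02 * v1 - x1 * v1 * g12) * hu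
      + (-x0 * g01 * u2 + x0 * u0 * g12) * hv
  rcases mul_eq_zero.1 this with h | h
  · exact absurd (pow_eq_zero_iff (two_ne_zero)|>.1 h) hx0
  · linarith

/-- The Miquel-type closing theorem for balls: if eight balls `P v` all touch `C 0` and `C 1`, and
every face ball touches the four vertex balls of its face, with the possible exception of one
contact, and no other vertex-face pair touches, then the exceptional contact holds as well. -/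
theorem closing (P C : Fin 8 → Fin 3 → ℝ) (R S : Fin 8 → ℝ)
    (htan : ∀ v s, ¬ (v = 7 ∧ s = 4) → T (P v) (C (nb v s)) (R v) (S (nb v s)) = 0)
    (hdis : ∀ v c, (∀ s, nb v s ≠ c) → T (P v) (C c) (R v) (S c) ≠ 0)
    (hG : G (P 0) (P 4) (R 0) (R 4) ≠ 0)
    (hC : C 0 ≠ C 1) :
    T (P 7) (C 7) (R 7) (S 7) = 0 := by
  have t00 : T (P 0) (C 0) (R 0) (S 0) = 0 := htan 0 0 (by decide)
  have t01 : T (P 0) (C 1) (R 0) (S 1) = 0 := htan 0 1 (by decide)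
  have t02 : T (P 0) (C 2) (R 0) (S 2) = 0 := htan 0 2 (by decide)
  have t04 : T (P 0) (C 4) (R 0) (S 4) = 0 := htan 0 3 (by decide)
  have t06 : T (P 0) (C 6) (R 0) (S 6) = 0 := htan 0 4 (by decide)
  have t10 : T (P 1) (C 0) (R 1) (S 0) = 0 := htan 1 0 (by decide)
  have t11 : T (P 1) (C 1) (R 1) (S 1) = 0 := htan 1 1 (by decide)
  have t13 : T (P 1) (C 3) (R 1) (S 3) = 0 := htan 1 2 (by decide)
  have t14 : T (P 1) (C 4) (R 1) (S 4) = 0 := htan 1 3 (by decide)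
  have t16 : T (P 1) (C 6) (R 1) (S 6) = 0 := htan 1 4 (by decide)
  have t20 : T (P 2) (C 0) (R 2) (S 0) = 0 := htan 2 0 (by decide)
  have t21 : T (P 2) (C 1) (R 2) (S 1) = 0 := htan 2 1 (by decide)
  have t22 : T (P 2) (C 2) (R 2) (S 2) = 0 := htan 2 2 (by decide)
  have t25 : T (P 2) (C 5) (R 2) (S 5) = 0 := htan 2 3 (by decide)
  have t26 : T (P 2) (C 6) (R 2) (S 6) = 0 := htan 2 4 (by decide)
  have t30 : T (P 3) (C 0) (R 3) (S 0) = 0 := htan 3 0 (by decide)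
  have t31 : T (P 3) (C 1) (R 3) (S 1) = 0 := htan 3 1 (by decide)
  have t33 : T (P 3) (C 3) (R 3) (S 3) = 0 := htan 3 2 (by decide)
  have t35 : T (P 3) (C 5) (R 3) (S 5) = 0 := htan 3 3 (by decide)
  have t36 : T (P 3) (C 6) (R 3) (S 6) = 0 := htan 3 4 (by decide)
  have t40 : T (P 4) (C 0) (R 4) (S 0) = 0 := htan 4 0 (by decide)
  have t41 : T (P 4) (C 1) (R 4) (S 1) = 0 := htan 4 1 (by decide)
  have t42 : T (P 4) (C 2) (R 4) (S 2) = 0 := htan 4 2 (by decide)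
  have t44 : T (P 4) (C 4) (R 4) (S 4) = 0 := htan 4 3 (by decide)
  have t47 : T (P 4) (C 7) (R 4) (S 7) = 0 := htan 4 4 (by decide)
  have t50 : T (P 5) (C 0) (R 5) (S 0) = 0 := htan 5 0 (by decide)
  have t51 : T (P 5) (C 1) (R 5) (S 1) = 0 := htan 5 1 (by decide)
  have t53 : T (P 5) (C 3) (R 5) (S 3) = 0 := htan 5 2 (by decide)
  have t54 : T (P 5) (C 4) (R 5) (S 4) = 0 := htan 5 3 (by decide)
  have t57 : T (P 5) (C 7) (R 5) (S 7) = 0 := htan 5 4 (by decide)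
  have t60 : T (P 6) (C 0) (R 6) (S 0) = 0 := htan 6 0 (by decide)
  have t61 : T (P 6) (C 1) (R 6) (S 1) = 0 := htan 6 1 (by decide)
  have t62 : T (P 6) (C 2) (R 6) (S 2) = 0 := htan 6 2 (by decide)
  have t65 : T (P 6) (C 5) (R 6) (S 5) = 0 := htan 6 3 (by decide)
  have t67 : T (P 6) (C 7) (R 6) (S 7) = 0 := htan 6 4 (by decide)
  have t70 : T (P 7) (C 0) (R 7) (S 0) = 0 := htan 7 0 (by decide)
  have t71 : T (P 7) (C 1) (R 7) (S 1) = 0 := htan 7 1 (by decide)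
  have t73 : T (P 7) (C 3) (R 7) (S 3) = 0 := htan 7 2 (by decide)
  have t75 : T (P 7) (C 5) (R 7) (S 5) = 0 := htan 7 3 (by decide)
  have n12 : T (P 1) (C 2) (R 1) (S 2) ≠ 0 := hdis 1 2 (by decide)
  have n24 : T (P 2) (C 4) (R 2) (S 4) ≠ 0 := hdis 2 4 (by decide)
  have n46 : T (P 4) (C 6) (R 4) (S 6) ≠ 0 := hdis 4 6 (by decide)
  have n03 : T (P 0) (C 3) (R 0) (S 3) ≠ 0 := hdis 0 3 (by decide)
  have n23 : T (P 2) (C 3) (R 2) (S 3) ≠ 0 := hdis 2 3 (by decide)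
  have n43 : T (P 4) (C 3) (R 4) (S 3) ≠ 0 := hdis 4 3 (by decide)
  have n05 : T (P 0) (C 5) (R 0) (S 5) ≠ 0 := hdis 0 5 (by decide)
  have n15 : T (P 1) (C 5) (R 1) (S 5) ≠ 0 := hdis 1 5 (by decide)
  have n45 : T (P 4) (C 5) (R 4) (S 5) ≠ 0 := hdis 4 5 (by decide)
  have n07 : T (P 0) (C 7) (R 0) (S 7) ≠ 0 := hdis 0 7 (by decide)
  have n17 : T (P 1) (C 7) (R 1) (S 7) ≠ 0 := hdis 1 7 (by decide)
  have n27 : T (P 2) (C 7) (R 2) (S 7) ≠ 0 := hdis 2 7 (by decide)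
  have n32 : T (P 3) (C 2) (R 3) (S 2) ≠ 0 := hdis 3 2 (by decide)
  have n34 : T (P 3) (C 4) (R 3) (S 4) ≠ 0 := hdis 3 4 (by decide)
  have n52 : T (P 5) (C 2) (R 5) (S 2) ≠ 0 := hdis 5 2 (by decide)
  have n56 : T (P 5) (C 6) (R 5) (S 6) ≠ 0 := hdis 5 6 (by decide)
  have n64 : T (P 6) (C 4) (R 6) (S 4) ≠ 0 := hdis 6 4 (by decide)
  have n66 : T (P 6) (C 6) (R 6) (S 6) ≠ 0 := hdis 6 6 (by decide)
  have n76 : T (P 7) (C 6) (R 7) (S 6) ≠ 0 := hdis 7 6 (by decide)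
  -- representation of a vertex ball through the four base balls
  have rep : ∀ v : Fin 8, T (P v) (C 0) (R v) (S 0) = 0 → T (P v) (C 1) (R v) (S 1) = 0 →
      ∃ x : Fin 4 → ℝ,
      (∀ (b : Fin 3 → ℝ) (t : ℝ), T (P v) b (R v) t = x 0 * T (P 0) b (R 0) t
        + x 1 * T (P 1) b (R 1) t + x 2 * T (P 2) b (R 2) t + x 3 * T (P 4) b (R 4) t) ∧
      x 0 * x 1 * G (P 0) (P 1) (R 0) (R 1) + x 0 * x 2 * G (P 0) (P 2) (R 0) (R 2)
        + x 0 * x 3 * G (P 0) (P 4) (R 0) (R 4) + x 1 * x 2 * G (P 1) (P 2) (R 1) (R 2)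
        + x 1 * x 3 * G (P 1) (P 4) (R 1) (R 4) + x 2 * x 3 * G (P 2) (P 4) (R 2) (R 4) = 0 := by
    intro v hv0 hv1
    exact exists_rep ![P 0, P 1, P 2, P 4] ![R 0, R 1, R 2, R 4] (P v) (R v) (C 0) (C 1) (S 0)
      (S 1) hC (by intro i; fin_cases i <;> assumption) (by intro i; fin_cases i <;> assumption)
      hv0 hv1 ![C 2, C 4, C 6] ![S 2, S 4, S 6] n12 n24 n46 t02 t04 t06 t14 t16 t22 t26 t42 t44
  obtain ⟨x, hx, qx⟩ := rep 3 t30 t31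
  obtain ⟨y, hy, qy⟩ := rep 5 t50 t51
  obtain ⟨z, hz, qz⟩ := rep 6 t60 t61
  obtain ⟨p, hp, qp⟩ := rep 7 t70 t71
  -- the face relation (I)
  have x3 : x 3 = 0 := by
    have h := hx (C 6) (S 6)
    rw [t36, t06, t16, t26] at h
    have : x 3 * T (P 4) (C 6) (R 4) (S 6) = 0 := by linarith
    exact (mul_eq_zero.1 this).resolve_right n46
  have x2 : x 2 ≠ 0 := by
    intro h2
    have h := hx (C 4) (S 4)
    rw [t04, t14, h2, t44] at h
    apply n34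
    linarith
  have I : G (P 1) (P 2) (R 1) (R 2) * T (P 0) (C 3) (R 0) (S 3) * T (P 0) (C 5) (R 0) (S 5)
      = G (P 0) (P 1) (R 0) (R 1) * T (P 2) (C 3) (R 2) (S 3) * T (P 0) (C 5) (R 0) (S 5)
        + G (P 0) (P 2) (R 0) (R 2) * T (P 1) (C 5) (R 1) (S 5) * T (P 0) (C 3) (R 0) (S 3) := by
    refine face_relation (x 0) (x 1) (x 2) _ _ _ _ _ _ _ x2 n23 ?_ ?_ ?_
    · have h := hx (C 3) (S 3)
      rw [t33, t13, x3] at h
      linarith
    · have h := hx (C 5) (S 5)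
      rw [t35, t25, x3] at h
      linarith
    · rw [x3] at qx
      linarith
  have y2 : y 2 = 0 := by
    have h := hy (C 4) (S 4)
    rw [t54, t04, t14, t44] at h
    have : y 2 * T (P 2) (C 4) (R 2) (S 4) = 0 := by linarith
    exact (mul_eq_zero.1 this).resolve_right n24
  have y3 : y 3 ≠ 0 := by
    intro h2
    have h := hy (C 6) (S 6)
    rw [t06, t16, h2, t26] at h
    apply n56
    linarith
  have II : G (P 1) (P 4) (R 1) (R 4) * T (P 0) (C 3) (R 0) (S 3) * T (P 0) (C 7) (R 0) (S 7)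
      = G (P 0) (P 1) (R 0) (R 1) * T (P 4) (C 3) (R 4) (S 3) * T (P 0) (C 7) (R 0) (S 7)
        + G (P 0) (P 4) (R 0) (R 4) * T (P 1) (C 7) (R 1) (S 7) * T (P 0) (C 3) (R 0) (S 3) := by
    refine face_relation (y 0) (y 1) (y 3) _ _ _ _ _ _ _ y3 n43 ?_ ?_ ?_
    · have h := hy (C 3) (S 3)
      rw [t53, t13, y2] at h
      linarith
    · have h := hy (C 7) (S 7)
      rw [t57, t47, y2] at h
      linarith
    · rw [y2] at qy
      linarith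
  have z1 : z 1 = 0 := by
    have h := hz (C 2) (S 2)
    rw [t62, t02, t22, t42] at h
    have : z 1 * T (P 1) (C 2) (R 1) (S 2) = 0 := by linarith
    exact (mul_eq_zero.1 this).resolve_right n12
  have z3 : z 3 ≠ 0 := by
    intro h2
    have h := hz (C 6) (S 6)
    rw [t06, t16, h2, t26] at h
    apply n66
    linarith
  have III : G (P 2) (P 4) (R 2) (R 4) * T (P 0) (C 5) (R 0) (S 5) * T (P 0) (C 7) (R 0) (S 7)
      = G (P 0) (P 2) (R 0) (R 2) * T (P 4) (C 5) (R 4) (S 5) * T (P 0) (C 7) (R 0) (S 7)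
        + G (P 0) (P 4) (R 0) (R 4) * T (P 2) (C 7) (R 2) (S 7) * T (P 0) (C 5) (R 0) (S 5) := by
    refine face_relation (z 0) (z 2) (z 3) _ _ _ _ _ _ _ z3 n45 ?_ ?_ ?_
    · have h := hz (C 5) (S 5)
      rw [t65, t25, z1] at h
      linarith
    · have h := hz (C 7) (S 7)
      rw [t67, t47, z1] at h
      linarith
    · rw [z1] at qz
      linarith
  -- the last vertex
  have p3 : p 3 ≠ 0 := by
    intro h2
    have h := hp (C 6) (S 6)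
    rw [t06, t16, h2, t26] at h
    apply n76
    linarith
  have hp3 := hp (C 3) (S 3)
  rw [t73, t13] at hp3
  have hp5 := hp (C 5) (S 5)
  rw [t75, t25] at hp5
  have hp7 := hp (C 7) (S 7)
  rw [t47] at hp7
  generalize T (P 0) (C 3) (R 0) (S 3) = u0 at *
  generalize T (P 2) (C 3) (R 2) (S 3) = u2 at *
  generalize T (P 4) (C 3) (R 4) (S 3) = u3 at *
  generalize T (P 0) (C 5) (R 0) (S 5) = v0 at *
  generalize T (P 1) (C 5) (R 1) (S 5) = v1 at *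
  generalize T (P 4) (C 5) (R 4) (S 5) = v3 at *
  generalize T (P 0) (C 7) (R 0) (S 7) = w0 at *
  generalize T (P 1) (C 7) (R 1) (S 7) = w1 at *
  generalize T (P 2) (C 7) (R 2) (S 7) = w2 at *
  generalize T (P 7) (C 7) (R 7) (S 7) = θ at *
  generalize G (P 0) (P 1) (R 0) (R 1) = g01 at *
  generalize G (P 0) (P 2) (R 0) (R 2) = g02 at *
  generalize G (P 0) (P 4) (R 0) (R 4) = g03 at *
  generalize G (P 1) (P 2) (R 1) (R 2) = g12 at *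
  generalize G (P 1) (P 4) (R 1) (R 4) = g13 at *
  generalize G (P 2) (P 4) (R 2) (R 4) = g23 at *
  generalize p 0 = p0 at *
  generalize p 1 = p1 at *
  generalize p 2 = p2 at *
  generalize p 3 = p3' at *
  have key : u0 * v0 * (g03 * p3' * θ) = 0 := by
    linear_combination (u0 * v0 * w0) * qp - p1 * p2 * w0 * I - p1 * p3' * v0 * II
      - p2 * p3' * u0 * III + g01 * p1 * v0 * w0 * hp3 + g02 * p2 * u0 * w0 * hp5
      + g03 * p3' * u0 * v0 * hp7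
  have : g03 * p3' * θ = 0 := (mul_eq_zero.1 key).resolve_left (mul_ne_zero n03 n05)
  exact (mul_eq_zero.1 this).resolve_left (mul_ne_zero hG p3)

end Pool.Agent.Lib.Helper22
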