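import Mathlib
import Pool.Agent.Lib.Helper22.Closing

set_option autoImplicit false

open scoped Topology

namespace Pool.Agent.Lib.Helper22

/-- Centre configurations: eight vertex balls and eight further balls. -/
abbrev E := (Fin 8 → Fin 3 → ℝ) × (Fin 8 → Fin 3 → ℝ)

/-- Values on the forty contacts. -/
abbrev F := Fin 8 → Fin 5 → ℝ

/-- The coordinate difference functional. -/
def Lk (v c : Fin 8) (k : Fin 3) : E →L[ℝ] ℝ :=
  ((ContinuousLinearMap.proj (R := ℝ) (φ := fun _ : Fin 3 => ℝ) k).comp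
    ((ContinuousLinearMap.proj (R := ℝ) (φ := fun _ : Fin 8 => Fin 3 → ℝ) v).comp
      (ContinuousLinearMap.fst ℝ (Fin 8 → Fin 3 → ℝ) (Fin 8 → Fin 3 → ℝ))))
  - ((ContinuousLinearMap.proj (R := ℝ) (φ := fun _ : Fin 3 => ℝ) k).comp
    ((ContinuousLinearMap.proj (R := ℝ) (φ := fun _ : Fin 8 => Fin 3 → ℝ) c).comp
      (ContinuousLinearMap.snd ℝ (Fin 8 → Fin 3 → ℝ) (Fin 8 → Fin 3 → ℝ))))

@[simp] theorem Lk_apply (v c : Fin 8) (k : Fin 3) (x : E) : Lk v c k x = x.1 v k - x.2 c k := by
  simp [Lk]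

/-- Squared lengths of the forty contacts. -/
def dmap (x : E) : F := fun v s => ∑ k, (x.1 v k - x.2 (nb v s) k) ^ 2

/-- Derivative of `dmap`. -/
def ddmap (x : E) : E →L[ℝ] F :=
  ContinuousLinearMap.pi fun v => ContinuousLinearMap.pi fun s =>
    ∑ k, (2 * (x.1 v k - x.2 (nb v s) k)) • Lk v (nb v s) k

theorem ddmap_apply (x δ : E) (v : Fin 8) (s : Fin 5) :
    ddmap x δ v s = ∑ k, (2 * (x.1 v k - x.2 (nb v s) k)) * (δ.1 v k - δ.2 (nb v s) k) := by
  simp [ddmap]

theorem hasStrictFDerivAt_dmap (x : E) : HasStrictFDerivAt dmap (ddmap x) x := by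
  rw [ddmap, hasStrictFDerivAt_pi']
  intro v
  rw [hasStrictFDerivAt_pi']
  intro s
  have h : ∀ k : Fin 3, HasStrictFDerivAt (fun y : E => (Lk v (nb v s) k y) ^ 2)
      ((2 * (x.1 v k - x.2 (nb v s) k)) • Lk v (nb v s) k) x := by
    intro k
    have := ((Lk v (nb v s) k).hasStrictFDerivAt (x := x)).pow 2
    simpa using this
  have h2 := HasStrictFDerivAt.fun_sum (u := Finset.univ) (fun k _ => h k)
  have h3 : (fun y : E => ∑ k, (Lk v (nb v s) k y) ^ 2) = fun y : E => dmap y v s := by
    funext y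
    simp [dmap]
  rw [h3] at h2
  exact h2

/-- The exceptional contact. -/
def e74 : F := Pi.single 7 (Pi.single 4 1)

/-- Squared lengths with a slack variable on the exceptional contact. -/
def smap (y : E × ℝ) : F := dmap y.1 + y.2 • e74

/-- Derivative of `smap`. -/
def dsmap (x : E) : E × ℝ →L[ℝ] F :=
  (ddmap x).comp (ContinuousLinearMap.fst ℝ E ℝ)
    + (ContinuousLinearMap.toSpanSingleton ℝ e74).comp (ContinuousLinearMap.snd ℝ E ℝ)

theorem dsmap_apply (x δ : E) (t : ℝ) : dsmap x (δ, t) = ddmap x δ + t • e74 := by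
  simp [dsmap]

theorem hasStrictFDerivAt_smap (y : E × ℝ) : HasStrictFDerivAt smap (dsmap y.1) y := by
  have h1 : HasStrictFDerivAt (fun y : E × ℝ => dmap y.1)
      ((ddmap y.1).comp (ContinuousLinearMap.fst ℝ E ℝ)) y :=
    (hasStrictFDerivAt_dmap y.1).comp y hasStrictFDerivAt_fst
  have h2 : HasStrictFDerivAt (fun y : E × ℝ => y.2 • e74)
      ((ContinuousLinearMap.toSpanSingleton ℝ e74).comp (ContinuousLinearMap.snd ℝ E ℝ)) y := by
    have := ((ContinuousLinearMap.toSpanSingleton ℝ e74).comp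
      (ContinuousLinearMap.snd ℝ E ℝ)).hasStrictFDerivAt (x := y)
    simpa using this
  exact h1.add h2

/-- A continuous linear map into `F` that is not onto is annihilated by a nonzero weight. -/
theorem exists_weight {V : Type*} [NormedAddCommGroup V] [NormedSpace ℝ V] (f : V →L[ℝ] F)
    (hf : f.range ≠ ⊤) :
    ∃ φ : F, φ ≠ 0 ∧ ∀ δ, ∑ v, ∑ s, φ v s * f δ v s = 0 := by
  classical
  obtain ⟨g, hg, hle⟩ := Submodule.exists_le_ker_of_lt_top _ (lt_top_iff_ne_top.2 hf)
  have hsum : ∀ x : F, g x = ∑ v, ∑ s, g (Pi.single v (Pi.single s 1)) * x v s := by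
    intro x
    have hx : x = ∑ v, ∑ s, x v s • (Pi.single v (Pi.single s 1) : F) := by
      funext v s
      rw [Finset.sum_apply, Finset.sum_apply, Finset.sum_eq_single v]
      · rw [Finset.sum_apply, Finset.sum_apply, Finset.sum_eq_single s]
        · simp
        · intro b _ hb
          simp [hb.symm]
        · simp
      · intro b _ hb
        rw [Finset.sum_apply, Finset.sum_apply]
        apply Finset.sum_eq_zero
        intro c _
        simp [hb.symm]
      · simp
    conv_lhs => rw [hx]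
    rw [map_sum]
    refine Finset.sum_congr rfl fun v _ => ?_
    rw [map_sum]
    refine Finset.sum_congr rfl fun s _ => ?_
    rw [map_smul, smul_eq_mul, mul_comm]
  refine ⟨fun v s => g (Pi.single v (Pi.single s 1)), ?_, ?_⟩
  · intro h0
    apply hg
    refine LinearMap.ext fun x => ?_
    rw [hsum]
    have : ∀ v s, g (Pi.single v (Pi.single s 1)) = 0 := fun v s => congrFun (congrFun h0 v) s
    simp [this]
  · intro δ
    rw [← hsum]
    exact hle ⟨δ, rfl⟩

/-- Equilibrium at the vertex balls. -/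
theorem equilibrium_left (x : E) (φ : F) (h : ∀ δ, ∑ v, ∑ s, φ v s * ddmap x δ v s = 0)
    (v : Fin 8) (k : Fin 3) : ∑ s, φ v s * (x.1 v k - x.2 (nb v s) k) = 0 := by
  classical
  have := h (Pi.single v (Pi.single k 1), 0)
  simp only [ddmap_apply, Pi.zero_apply, sub_zero] at this
  rw [Finset.sum_eq_single v] at this
  · have h2 : ∀ s, ∑ k', 2 * (x.1 v k' - x.2 (nb v s) k') *
        (Pi.single v (Pi.single k (1 : ℝ)) : Fin 8 → Fin 3 → ℝ) v k'
        = 2 * (x.1 v k - x.2 (nb v s) k) := by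
      intro s
      rw [Finset.sum_eq_single k]
      · simp
      · intro b _ hb
        simp [hb]
      · simp
    simp only [h2] at this
    have h3 : ∑ s, φ v s * (2 * (x.1 v k - x.2 (nb v s) k))
        = 2 * ∑ s, φ v s * (x.1 v k - x.2 (nb v s) k) := by
      rw [Finset.mul_sum]
      refine Finset.sum_congr rfl fun s _ => by ring
    rw [h3] at this
    linarith
  · intro b _ hb
    apply Finset.sum_eq_zero
    intro s _
    simp [hb]
  · simp

/-- Equilibrium at the other balls. -/
theorem equilibrium_right (x : E) (φ : F) (h : ∀ δ, ∑ v, ∑ s, φ v s * ddmap x δ v s = 0)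
    (c : Fin 8) (k : Fin 3) :
    ∑ v, ∑ s, (if nb v s = c then φ v s * (x.1 v k - x.2 c k) else 0) = 0 := by
  classical
  have := h (0, Pi.single c (Pi.single k 1))
  simp only [ddmap_apply, Pi.zero_apply, zero_sub] at this
  have h2 : ∀ v s, φ v s * ∑ k', 2 * (x.1 v k' - x.2 (nb v s) k') *
        -(Pi.single c (Pi.single k (1 : ℝ)) : Fin 8 → Fin 3 → ℝ) (nb v s) k'
        = -2 * (if nb v s = c then φ v s * (x.1 v k - x.2 c k) else 0) := by
    intro v s
    by_cases hc : nb v s = c
    · rw [if_pos hc, hc, Finset.sum_eq_single k]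
      · simp
        ring
      · intro b _ hb
        simp [hb]
      · simp
    · rw [if_neg hc]
      simp [hc]
  simp only [h2] at this
  simp only [← Finset.mul_sum] at this
  linarith

end Pool.Agent.Lib.Helper22
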