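import Mathlib
import Pool.Agent.Lib.Helper22.Analysis

set_option autoImplicit false

namespace Pool.Agent.Lib.Helper22

/-- Centres of the vertex balls of the base packing. -/
def P0 : Fin 8 → Fin 3 → ℚ :=
  ![![-16/55, -2/55, -28/165],
    ![0, -2/7, -4/3],
    ![-16/91, 2/13, -4/39],
    ![0, 14/43, -28/129],
    ![-4/13, -5/78, 2/13],
    ![0, -5/6, 2],
    ![-8/47, 23/141, 4/47],
    ![0, 1/3, 4/23]]

/-- Radii of the vertex balls of the base packing. -/
def R0 : Fin 8 → ℚ := ![2/15, 22/21, 22/273, 22/129, 11/78, 11/6, 11/141, 11/69]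

/-- Centres of the other balls of the base packing. -/
def C0 : Fin 8 → Fin 3 → ℚ :=
  ![![-12/13, 9/13, 0],
    ![1/9, -1/12, 0],
    ![-25/103, 27/412, 0],
    ![1, 27/28, 0],
    ![-2028/5305, -2327/5305, -296/5305],
    ![-2028/22621, 5369/22621, -296/22621],
    ![-1/6, 1/8, -5/18],
    ![-9/55, 27/220, 16/55]]

/-- Radii of the other balls of the base packing. -/
def S0 : Fin 8 → ℚ := ![11/13, 11/36, 29/412, 29/28, 1563/5305, 1563/22621, 7/72, 29/220]

theorem base_contact : ∀ v s, ∑ k, (P0 v k - C0 (nb v s) k) ^ 2 = (R0 v + S0 (nb v s)) ^ 2 := by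
  decide +kernel

theorem base_PP : ∀ v w, v ≠ w → (R0 v + R0 w) ^ 2 < ∑ k, (P0 v k - P0 w k) ^ 2 := by
  decide +kernel

theorem base_CC : ∀ v w, v ≠ w → (S0 v + S0 w) ^ 2 < ∑ k, (C0 v k - C0 w k) ^ 2 := by
  decide +kernel

theorem base_PC : ∀ v c, (∀ s, nb v s ≠ c) → (R0 v + S0 c) ^ 2 < ∑ k, (P0 v k - C0 c k) ^ 2 := by
  decide +kernel

theorem base_R : ∀ v, 0 < R0 v := by decide +kernel

theorem base_S : ∀ v, 0 < S0 v := by decide +kernel

/-- The centres of the base packing as a point of `E`. -/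
noncomputable def x0 : E := (fun v k => (P0 v k : ℝ), fun c k => (C0 c k : ℝ))

theorem right_sum_2 (g : Fin 8 → Fin 5 → ℝ) :
    (∑ v, ∑ s, (if nb v s = 2 then g v s else 0)) = g 0 2 + g 2 2 + g 4 2 + g 6 2 := by
  simp [Fin.sum_univ_succ, nb]
  ring

theorem right_sum_3 (g : Fin 8 → Fin 5 → ℝ) :
    (∑ v, ∑ s, (if nb v s = 3 then g v s else 0)) = g 1 2 + g 3 2 + g 5 2 + g 7 2 := by
  simp [Fin.sum_univ_succ, nb]
  ring

theorem right_sum_4 (g : Fin 8 → Fin 5 → ℝ) :
    (∑ v, ∑ s, (if nb v s = 4 then g v s else 0)) = g 0 3 + g 1 3 + g 4 3 + g 5 3 := by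
  simp [Fin.sum_univ_succ, nb]
  ring

theorem right_sum_5 (g : Fin 8 → Fin 5 → ℝ) :
    (∑ v, ∑ s, (if nb v s = 5 then g v s else 0)) = g 2 3 + g 3 3 + g 6 3 + g 7 3 := by
  simp [Fin.sum_univ_succ, nb]
  ring

theorem right_sum_6 (g : Fin 8 → Fin 5 → ℝ) :
    (∑ v, ∑ s, (if nb v s = 6 then g v s else 0)) = g 0 4 + g 1 4 + g 2 4 + g 3 4 := by
  simp [Fin.sum_univ_succ, nb]
  ring

theorem right_sum_7 (g : Fin 8 → Fin 5 → ℝ) :
    (∑ v, ∑ s, (if nb v s = 7 then g v s else 0)) = g 4 4 + g 5 4 + g 6 4 + g 7 4 := by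
  simp [Fin.sum_univ_succ, nb]
  ring

/-- The base packing has no equilibrium stress vanishing on the exceptional contact. -/
theorem base_noStress (φ : F)
    (hl : ∀ v k, ∑ s, φ v s * (x0.1 v k - x0.2 (nb v s) k) = 0)
    (hr : ∀ c k, ∑ v, ∑ s, (if nb v s = c then φ v s * (x0.1 v k - x0.2 c k) else 0) = 0)
    (z74 : φ 7 4 = 0) : φ = 0 := by
  have l00 : φ 0 0 * (452/715) + φ 0 1 * (-199/495) + φ 0 2 * (-273/5665) + φ 0 3 * (5332/58355) + φ 0 4 * (-41/330) = 0 := by
    have h := hl 0 0
    simp only [Fin.sum_univ_five] at h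
    simp [x0, P0, C0, nb] at h
    linear_combination h
  have l01 : φ 0 0 * (-521/715) + φ 0 1 * (31/660) + φ 0 2 * (-2309/22660) + φ 0 3 * (4695/11671) + φ 0 4 * (-71/440) = 0 := by
    have h := hl 0 1
    simp only [Fin.sum_univ_five] at h
    simp [x0, P0, C0, nb] at h
    linear_combination h
  have l02 : φ 0 0 * (-28/165) + φ 0 1 * (-28/165) + φ 0 2 * (-28/165) + φ 0 3 * (-3988/35013) + φ 0 4 * (107/990) = 0 := by
    have h := hl 0 2
    simp only [Fin.sum_univ_five] at h
    simp [x0, P0, C0, nb] at h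
    linear_combination h
  have l10 : φ 1 0 * (12/13) + φ 1 1 * (-1/9) + φ 1 2 * (-1) + φ 1 3 * (2028/5305) + φ 1 4 * (1/6) = 0 := by
    have h := hl 1 0
    simp only [Fin.sum_univ_five] at h
    simp [x0, P0, C0, nb] at h
    linear_combination h
  have l11 : φ 1 0 * (-89/91) + φ 1 1 * (-17/84) + φ 1 2 * (-5/4) + φ 1 3 * (5679/37135) + φ 1 4 * (-23/56) = 0 := by
    have h := hl 1 1
    simp only [Fin.sum_univ_five] at h
    simp [x0, P0, C0, nb] at h
    linear_combination h
  have l12 : φ 1 0 * (-4/3) + φ 1 1 * (-4/3) + φ 1 2 * (-4/3) + φ 1 3 * (-20332/15915) + φ 1 4 * (-19/18) = 0 := by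
    have h := hl 1 2
    simp only [Fin.sum_univ_five] at h
    simp [x0, P0, C0, nb] at h
    linear_combination h
  have l20 : φ 2 0 * (68/91) + φ 2 1 * (-235/819) + φ 2 2 * (627/9373) + φ 2 3 * (-177388/2058511) + φ 2 4 * (-5/546) = 0 := by
    have h := hl 2 0
    simp only [Fin.sum_univ_five] at h
    simp [x0, P0, C0, nb] at h
    linear_combination h
  have l21 : φ 2 0 * (-7/13) + φ 2 1 * (37/156) + φ 2 2 * (473/5356) + φ 2 3 * (-24555/294073) + φ 2 4 * (3/104) = 0 := by
    have h := hl 2 1
    simp only [Fin.sum_univ_five] at h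
    simp [x0, P0, C0, nb] at h
    linear_combination h
  have l22 : φ 2 0 * (-4/39) + φ 2 1 * (-4/39) + φ 2 2 * (-4/39) + φ 2 3 * (-78940/882219) + φ 2 4 * (41/234) = 0 := by
    have h := hl 2 2
    simp only [Fin.sum_univ_five] at h
    simp [x0, P0, C0, nb] at h
    linear_combination h
  have l30 : φ 3 0 * (12/13) + φ 3 1 * (-1/9) + φ 3 2 * (-1) + φ 3 3 * (2028/22621) + φ 3 4 * (1/6) = 0 := by
    have h := hl 3 0
    simp only [Fin.sum_univ_five] at h
    simp [x0, P0, C0, nb] at h
    linear_combination h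
  have l31 : φ 3 0 * (-205/559) + φ 3 1 * (211/516) + φ 3 2 * (-769/1204) + φ 3 3 * (85827/972703) + φ 3 4 * (69/344) = 0 := by
    have h := hl 3 1
    simp only [Fin.sum_univ_five] at h
    simp [x0, P0, C0, nb] at h
    linear_combination h
  have l32 : φ 3 0 * (-28/129) + φ 3 1 * (-28/129) + φ 3 2 * (-28/129) + φ 3 3 * (-595204/2918109) + φ 3 4 * (47/774) = 0 := by
    have h := hl 3 2
    simp only [Fin.sum_univ_five] at h
    simp [x0, P0, C0, nb] at h
    linear_combination h
  have l40 : φ 4 0 * (8/13) + φ 4 1 * (-49/117) + φ 4 2 * (-87/1339) + φ 4 3 * (5144/68965) + φ 4 4 * (-103/715) = 0 := by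
    have h := hl 4 0
    simp only [Fin.sum_univ_five] at h
    simp [x0, P0, C0, nb] at h
    linear_combination h
  have l41 : φ 4 0 * (-59/78) + φ 4 1 * (1/52) + φ 4 2 * (-2083/16068) + φ 4 3 * (154981/413790) + φ 4 4 * (-1603/8580) = 0 := by
    have h := hl 4 1
    simp only [Fin.sum_univ_five] at h
    simp [x0, P0, C0, nb] at h
    linear_combination h
  have l42 : φ 4 0 * (2/13) + φ 4 1 * (2/13) + φ 4 2 * (2/13) + φ 4 3 * (14458/68965) + φ 4 4 * (-98/715) = 0 := by
    have h := hl 4 2
    simp only [Fin.sum_univ_five] at h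
    simp [x0, P0, C0, nb] at h
    linear_combination h
  have l50 : φ 5 0 * (12/13) + φ 5 1 * (-1/9) + φ 5 2 * (-1) + φ 5 3 * (2028/5305) + φ 5 4 * (9/55) = 0 := by
    have h := hl 5 0
    simp only [Fin.sum_univ_five] at h
    simp [x0, P0, C0, nb] at h
    linear_combination h
  have l51 : φ 5 0 * (-119/78) + φ 5 1 * (-3/4) + φ 5 2 * (-151/84) + φ 5 3 * (-12563/31830) + φ 5 4 * (-631/660) = 0 := by
    have h := hl 5 1
    simp only [Fin.sum_univ_five] at h
    simp [x0, P0, C0, nb] at h
    linear_combination h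
  have l52 : φ 5 0 * (2) + φ 5 1 * (2) + φ 5 2 * (2) + φ 5 3 * (10906/5305) + φ 5 4 * (94/55) = 0 := by
    have h := hl 5 2
    simp only [Fin.sum_univ_five] at h
    simp [x0, P0, C0, nb] at h
    linear_combination h
  have l60 : φ 6 0 * (460/611) + φ 6 1 * (-119/423) + φ 6 2 * (351/4841) + φ 6 3 * (-85652/1063187) + φ 6 4 * (-17/2585) = 0 := by
    have h := hl 6 0
    simp only [Fin.sum_univ_five] at h
    simp [x0, P0, C0, nb] at h
    linear_combination h
  have l61 : φ 6 0 * (-970/1833) + φ 6 1 * (139/564) + φ 6 2 * (5669/58092) + φ 6 3 * (-236746/3189561) + φ 6 4 * (1253/31020) = 0 := by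
    have h := hl 6 1
    simp only [Fin.sum_univ_five] at h
    simp [x0, P0, C0, nb] at h
    linear_combination h
  have l62 : φ 6 0 * (4/47) + φ 6 1 * (4/47) + φ 6 2 * (4/47) + φ 6 3 * (104396/1063187) + φ 6 4 * (-532/2585) = 0 := by
    have h := hl 6 2
    simp only [Fin.sum_univ_five] at h
    simp [x0, P0, C0, nb] at h
    linear_combination h
  have l70 : φ 7 0 * (12/13) + φ 7 1 * (-1/9) + φ 7 2 * (-1) + φ 7 3 * (2028/22621) + φ 7 4 * (9/55) = 0 := by
    have h := hl 7 0
    simp only [Fin.sum_univ_five] at h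
    simp [x0, P0, C0, nb] at h
    linear_combination h
  have l71 : φ 7 0 * (-14/39) + φ 7 1 * (5/12) + φ 7 2 * (-53/84) + φ 7 3 * (6514/67863) + φ 7 4 * (139/660) = 0 := by
    have h := hl 7 1
    simp only [Fin.sum_univ_five] at h
    simp [x0, P0, C0, nb] at h
    linear_combination h
  have l72 : φ 7 0 * (4/23) + φ 7 1 * (4/23) + φ 7 2 * (4/23) + φ 7 3 * (97292/520283) + φ 7 4 * (-148/1265) = 0 := by
    have h := hl 7 2
    simp only [Fin.sum_univ_five] at h
    simp [x0, P0, C0, nb] at h
    linear_combination h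
  have r20 : φ 0 2 * (-273/5665) + φ 2 2 * (627/9373) + φ 4 2 * (-87/1339) + φ 6 2 * (351/4841) = 0 := by
    have h := hr 2 0
    rw [right_sum_2] at h
    simp [x0, P0, C0] at h
    linear_combination h
  have r21 : φ 0 2 * (-2309/22660) + φ 2 2 * (473/5356) + φ 4 2 * (-2083/16068) + φ 6 2 * (5669/58092) = 0 := by
    have h := hr 2 1
    rw [right_sum_2] at h
    simp [x0, P0, C0] at h
    linear_combination h
  have r22 : φ 0 2 * (-28/165) + φ 2 2 * (-4/39) + φ 4 2 * (2/13) + φ 6 2 * (4/47) = 0 := by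
    have h := hr 2 2
    rw [right_sum_2] at h
    simp [x0, P0, C0] at h
    linear_combination h
  have r30 : φ 1 2 * (-1) + φ 3 2 * (-1) + φ 5 2 * (-1) + φ 7 2 * (-1) = 0 := by
    have h := hr 3 0
    rw [right_sum_3] at h
    simp [x0, P0, C0] at h
    linear_combination h
  have r31 : φ 1 2 * (-5/4) + φ 3 2 * (-769/1204) + φ 5 2 * (-151/84) + φ 7 2 * (-53/84) = 0 := by
    have h := hr 3 1
    rw [right_sum_3] at h
    simp [x0, P0, C0] at h
    linear_combination h
  have r32 : φ 1 2 * (-4/3) + φ 3 2 * (-28/129) + φ 5 2 * (2) + φ 7 2 * (4/23) = 0 := by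
    have h := hr 3 2
    rw [right_sum_3] at h
    simp [x0, P0, C0] at h
    linear_combination h
  have r40 : φ 0 3 * (5332/58355) + φ 1 3 * (2028/5305) + φ 4 3 * (5144/68965) + φ 5 3 * (2028/5305) = 0 := by
    have h := hr 4 0
    rw [right_sum_4] at h
    simp [x0, P0, C0] at h
    linear_combination h
  have r41 : φ 0 3 * (4695/11671) + φ 1 3 * (5679/37135) + φ 4 3 * (154981/413790) + φ 5 3 * (-12563/31830) = 0 := by
    have h := hr 4 1
    rw [right_sum_4] at h
    simp [x0, P0, C0] at h
    linear_combination h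
  have r42 : φ 0 3 * (-3988/35013) + φ 1 3 * (-20332/15915) + φ 4 3 * (14458/68965) + φ 5 3 * (10906/5305) = 0 := by
    have h := hr 4 2
    rw [right_sum_4] at h
    simp [x0, P0, C0] at h
    linear_combination h
  have r50 : φ 2 3 * (-177388/2058511) + φ 3 3 * (2028/22621) + φ 6 3 * (-85652/1063187) + φ 7 3 * (2028/22621) = 0 := by
    have h := hr 5 0
    rw [right_sum_5] at h
    simp [x0, P0, C0] at h
    linear_combination h
  have r51 : φ 2 3 * (-24555/294073) + φ 3 3 * (85827/972703) + φ 6 3 * (-236746/3189561) + φ 7 3 * (6514/67863) = 0 := by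
    have h := hr 5 1
    rw [right_sum_5] at h
    simp [x0, P0, C0] at h
    linear_combination h
  have r52 : φ 2 3 * (-78940/882219) + φ 3 3 * (-595204/2918109) + φ 6 3 * (104396/1063187) + φ 7 3 * (97292/520283) = 0 := by
    have h := hr 5 2
    rw [right_sum_5] at h
    simp [x0, P0, C0] at h
    linear_combination h
  have r60 : φ 0 4 * (-41/330) + φ 1 4 * (1/6) + φ 2 4 * (-5/546) + φ 3 4 * (1/6) = 0 := by
    have h := hr 6 0
    rw [right_sum_6] at h
    simp [x0, P0, C0] at h
    linear_combination h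
  have r61 : φ 0 4 * (-71/440) + φ 1 4 * (-23/56) + φ 2 4 * (3/104) + φ 3 4 * (69/344) = 0 := by
    have h := hr 6 1
    rw [right_sum_6] at h
    simp [x0, P0, C0] at h
    linear_combination h
  have r62 : φ 0 4 * (107/990) + φ 1 4 * (-19/18) + φ 2 4 * (41/234) + φ 3 4 * (47/774) = 0 := by
    have h := hr 6 2
    rw [right_sum_6] at h
    simp [x0, P0, C0] at h
    linear_combination h
  have r70 : φ 4 4 * (-103/715) + φ 5 4 * (9/55) + φ 6 4 * (-17/2585) + φ 7 4 * (9/55) = 0 := by
    have h := hr 7 0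
    rw [right_sum_7] at h
    simp [x0, P0, C0] at h
    linear_combination h
  have r71 : φ 4 4 * (-1603/8580) + φ 5 4 * (-631/660) + φ 6 4 * (1253/31020) + φ 7 4 * (139/660) = 0 := by
    have h := hr 7 1
    rw [right_sum_7] at h
    simp [x0, P0, C0] at h
    linear_combination h
  have r72 : φ 4 4 * (-98/715) + φ 5 4 * (94/55) + φ 6 4 * (-532/2585) + φ 7 4 * (-148/1265) = 0 := by
    have h := hr 7 2
    rw [right_sum_7] at h
    simp [x0, P0, C0] at h
    linear_combination h
  have z44 : φ 4 4 = 0 := by linear_combination (-3679/652) * r70 + (-1131/1141) * r71 + (-65/4564) * r72 + (26/23) * z74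
  have z54 : φ 5 4 = 0 := by linear_combination (1267/652) * r70 + (-207/163) * r71 + (-203/652) * r72 + (-2/23) * z74
  have z64 : φ 6 4 = 0 := by linear_combination (3243/163) * r70 + (-11280/1141) * r71 + (-16967/2282) * r72 + (-47/23) * z74
  have k4 : (95490/682169) * φ 4 2 + φ 4 3 = 0 := by linear_combination (47745/52984) * l40 + (15915/13246) * l41 + (122015/52984) * l42 + (48806/72853) * z44
  have k5 : (-95490/41699) * φ 5 2 + φ 5 3 = 0 := by linear_combination (47745/47656) * l50 + (15915/11914) * l51 + (26525/47656) * l52 + (10610/65527) * z54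
  have k6 : (-407178/613571) * φ 6 2 + φ 6 3 = 0 := by linear_combination (-203589/47656) * l60 + (-67863/11914) * l61 + (113105/47656) * l62 + (45242/65527) * z64
  have k7 : (407178/46361) * φ 7 2 + φ 7 3 = 0 := by linear_combination (-203589/52984) * l70 + (-67863/13246) * l71 + (520283/52984) * l72 + (1040566/364265) * z74
  have c2 : (47/26) * φ 4 2 + φ 6 2 = 0 := by linear_combination (92449/1716) * r20 + (-4935/143) * r21 + (141/26) * r22
  have c3 : (23/2) * φ 5 2 + φ 7 2 = 0 := by linear_combination (131/52) * r30 + (-63/13) * r31 + (69/26) * r32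
  have c4 : (1/13) * φ 4 3 + φ 5 3 = 0 := by linear_combination (142605/145364) * r40 + (-21021/145364) * r41 + (160623/581456) * r42
  have c5 : (23/47) * φ 6 3 + φ 7 3 = 0 := by linear_combination (-7136325/69983) * r50 + (7328697/69983) * r51 + (134757/279932) * r52
  have z42 : φ 4 2 = 0 := by linear_combination (-17682502649/584398800) * k4 + (-229872534437/584398800) * k5 + (255572569343/58560339960) * k6 + (11111850841/1245964680) * k7 + (416533/143820) * c2 + (-239681/3060) * c3 + (229872534437/584398800) * c4 + (-11111850841/1245964680) * c5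
  have z43 : φ 4 3 = 0 := by linear_combination (1) * k4 + (-95490/682169) * z42
  have z62 : φ 6 2 = 0 := by linear_combination (1) * c2 + (-47/26) * z42
  have z63 : φ 6 3 = 0 := by linear_combination (1) * k6 + (407178/613571) * z62
  have z53 : φ 5 3 = 0 := by linear_combination (1) * c4 + (-1/13) * z43
  have z52 : φ 5 2 = 0 := by linear_combination (-41699/95490) * k5 + (41699/95490) * z53
  have z72 : φ 7 2 = 0 := by linear_combination (1) * c3 + (-23/2) * z52
  have z73 : φ 7 3 = 0 := by linear_combination (1) * k7 + (-407178/46361) * z72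
  have z02 : φ 0 2 = 0 := by linear_combination (34741/936) * r20 + (-723/26) * r21 + (55/208) * r22 + (-385/312) * z42
  have z22 : φ 2 2 = 0 := by linear_combination (-66157/3960) * r20 + (1911/110) * r21 + (-91/16) * r22 + (49/24) * z42
  have z12 : φ 1 2 = 0 := by linear_combination (7727/7176) * r30 + (-1015/598) * r31 + (7/208) * r32 + (-49/24) * z52
  have z32 : φ 3 2 = 0 := by linear_combination (-2537/552) * r30 + (301/46) * r31 + (-43/16) * r32 + (301/24) * z52
  have z03 : φ 0 3 = 0 := by linear_combination (436205/1162912) * r40 + (2927925/1162912) * r41 + (1924065/4651648) * r42 + (-55/52) * z43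
  have z13 : φ 1 3 = 0 := by linear_combination (1796935/1162912) * r40 + (-531657/1162912) * r41 + (-1744869/4651648) * r42 + (7/52) * z43
  have z23 : φ 2 3 = 0 := by linear_combination (-165264281/1119728) * r50 + (20069595/139966) * r51 + (-3183453/1119728) * r52 + (-91/94) * z63
  have z33 : φ 3 3 = 0 := by linear_combination (-32181415/1119728) * r50 + (4633551/139966) * r51 + (-3598971/1119728) * r52 + (43/94) * z63
  have z04 : φ 0 4 = 0 := by linear_combination (-9/5) * l00 + (-12/5) * l01 + (18/5) * l02 + (144/515) * z02 + (40848/26525) * z03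
  have z00 : φ 0 0 = 0 := by linear_combination (2067/6776) * l00 + (-1495/1694) * l01 + (-117/121) * l02 + (-1898/7931) * z02 + (88647/408485) * z03
  have z01 : φ 0 1 = 0 := by linear_combination (-6147/4235) * l00 + (-2736/4235) * l01 + (-1593/605) * l02 + (-23103/39655) * z02 + (189144/2042425) * z03
  have z14 : φ 1 4 = 0 := by linear_combination (-63/5) * l10 + (-84/5) * l11 + (18/5) * l12 + (-144/5) * z12 + (317904/26525) * z13
  have z10 : φ 1 0 = 0 := by linear_combination (3939/968) * l10 + (91/22) * l11 + (-117/121) * l12 + (962/121) * z12 + (-2197533/641905) * z13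
  have z11 : φ 1 1 = 0 := by linear_combination (3573/605) * l10 + (504/55) * l11 + (-1593/605) * l12 + (8379/605) * z12 + (-22540104/3209525) * z13
  have z24 : φ 2 4 = 0 := by linear_combination (63/5) * l20 + (84/5) * l21 + (18/5) * l22 + (-1008/515) * z22 + (317904/113105) * z23
  have z20 : φ 2 0 = 0 := by linear_combination (6825/968) * l20 + (1963/242) * l21 + (-117/121) * l22 + (-16042/12463) * z22 + (3280095/2737141) * z23
  have z21 : φ 2 1 = 0 := by linear_combination (8757/605) * l20 + (12456/605) * l21 + (-1593/605) * l22 + (-190467/62315) * z22 + (37373256/13685705) * z23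
  have z34 : φ 3 4 = 0 := by linear_combination (9/5) * l30 + (12/5) * l31 + (18/5) * l32 + (144/35) * z32 + (40848/113105) * z33
  have z30 : φ 3 0 = 0 := by linear_combination (4953/6776) * l30 + (-533/1694) * l31 + (-117/121) * l32 + (1898/5929) * z32 + (-4502511/19159987) * z33
  have z31 : φ 3 1 = 0 := by linear_combination (-963/4235) * l30 + (4176/4235) * l31 + (-1593/605) * l32 + (-5013/29645) * z32 + (-57832776/95799935) * z33
  have z40 : φ 4 0 = 0 := by linear_combination (819/2783) * l40 + (-2496/2783) * l41 + (221/242) * l42 + (-68120/286649) * z42 + (1808781/14763815) * z43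
  have z41 : φ 4 1 = 0 := by linear_combination (-66465/44528) * l40 + (-7803/11132) * l41 + (4887/1936) * l42 + (-165168/286649) * z42 + (-4586409/29527630) * z43
  have z50 : φ 5 0 = 0 := by linear_combination (1521/605) * l50 + (1248/605) * l51 + (221/242) * l52 + (18616/4235) * z52 + (-6497049/3209525) * z53
  have z51 : φ 5 1 = 0 := by linear_combination (26847/9680) * l50 + (12069/2420) * l51 + (4887/1936) * l52 + (28332/4235) * z52 + (-27481491/6419050) * z53
  have z60 : φ 6 0 = 0 := by linear_combination (2457/484) * l60 + (663/121) * l61 + (221/242) * l62 + (-12220/12463) * z62 + (1987167/2737141) * z63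
  have z61 : φ 6 1 = 0 := by linear_combination (95697/9680) * l60 + (35019/2420) * l61 + (4887/1936) * l62 + (-146052/62315) * z62 + (44414541/27371410) * z63
  have z70 : φ 7 0 = 0 := by linear_combination (9477/11132) * l70 + (-39/253) * l71 + (221/242) * l72 + (11596/19481) * z72 + (-14624103/62954243) * z73
  have z71 : φ 7 1 = 0 := by linear_combination (2385/44528) * l70 + (1377/1012) * l71 + (4887/1936) * l72 + (9216/19481) * z72 + (-76482441/125908486) * z73
  funext v s
  fin_cases v <;> fin_cases s <;> assumption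

end Pool.Agent.Lib.Helper22
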