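import Mathlib

set_option autoImplicit false

namespace Pool.Agent.Lib.Helper22

open MvPolynomial

/-- The points of `ι → ℝ` with coordinates algebraically independent over `ℚ` are dense. -/
theorem dense_algebraicIndependent {ι : Type} [Finite ι] :
    Dense {x : ι → ℝ | AlgebraicIndependent ℚ x} := by
  classical
  haveI := Fintype.ofFinite ι
  have hcount : Countable (MvPolynomial ι ℚ) := by
    rw [← Cardinal.mk_le_aleph0_iff]
    refine (MvPolynomial.cardinalMk_le_max (σ := ι) (R := ℚ)).trans ?_
    simp
  have hset : {x : ι → ℝ | AlgebraicIndependent ℚ x} =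
      ⋂ p : {p : MvPolynomial ι ℚ // p ≠ 0}, {x : ι → ℝ | aeval x p.1 ≠ 0} := by
    ext x
    simp only [Set.mem_setOf_eq, Set.mem_iInter, Subtype.forall]
    rw [algebraicIndependent_iff]
    constructor
    · intro h p hp h0
      exact hp (h p h0)
    · intro h p h0
      by_contra hp
      exact h p hp h0
  rw [hset]
  have haeval : ∀ (p : MvPolynomial ι ℚ) (x : ι → ℝ),
      aeval x p = eval x (map (algebraMap ℚ ℝ) p) := by
    intro p x
    rw [aeval_def, eval_map]
  refine dense_iInter_of_isOpen ?_ ?_
  · intro p
    have hc : Continuous fun x : ι → ℝ => aeval x p.1 := by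
      simp_rw [haeval]
      exact MvPolynomial.continuous_eval _
    exact isOpen_ne_fun hc continuous_const
  · intro p
    rw [dense_iff_inter_open]
    intro U hU hne
    obtain ⟨x, hx⟩ := hne
    rw [Metric.isOpen_iff] at hU
    obtain ⟨ε, hε, hball⟩ := hU x hx
    by_contra hcon
    rw [Set.not_nonempty_iff_eq_empty] at hcon
    have hp0 : map (algebraMap ℚ ℝ) p.1 = 0 := by
      refine MvPolynomial.funext_set (fun i => Set.Ioo (x i - ε / 2) (x i + ε / 2)) ?_ ?_
      · intro i
        exact Set.Ioo_infinite (by linarith)
      · intro y hy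
        rw [map_zero]
        by_contra hy0
        have hyU : y ∈ U := by
          apply hball
          rw [Metric.mem_ball]
          refine lt_of_le_of_lt ?_ (half_lt_self hε)
          rw [dist_pi_le_iff (by linarith)]
          intro i
          have := hy i (Set.mem_univ i)
          rw [Real.dist_eq, abs_le]
          constructor <;> linarith [this.1, this.2]
        have : y ∈ U ∩ {x : ι → ℝ | aeval x p.1 ≠ 0} := by
          refine ⟨hyU, ?_⟩
          simp only [Set.mem_setOf_eq]
          rw [haeval]
          exact hy0
        rw [hcon] at this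
        exact this
    apply p.2
    apply MvPolynomial.map_injective (algebraMap ℚ ℝ) (algebraMap ℚ ℝ).injective
    rw [hp0, map_zero]

end Pool.Agent.Lib.Helper22
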