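import Mathlib
import Pool.Agent.Lib.Helper22.GenericPoint
import Pool.Agent.Lib.Helper22.Base

set_option autoImplicit false

open scoped Topology
open Filter

namespace Pool.Agent.Lib.Helper22

/-- Strict packing conditions for a configuration of centres and radii. -/
structure Good (x : E) (ρ : Fin 8 ⊕ Fin 8 → ℝ) : Prop where
  pos : ∀ i, 0 < ρ i
  pp : ∀ v w, v ≠ w → (ρ (.inl v) + ρ (.inl w)) ^ 2 < ∑ k, (x.1 v k - x.1 w k) ^ 2
  cc : ∀ v w, v ≠ w → (ρ (.inr v) + ρ (.inr w)) ^ 2 < ∑ k, (x.2 v k - x.2 w k) ^ 2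
  pc : ∀ v c, (∀ s, nb v s ≠ c) → (ρ (.inl v) + ρ (.inr c)) ^ 2 < ∑ k, (x.1 v k - x.2 c k) ^ 2

/-- Radii of the base packing. -/
noncomputable def ρ0 : Fin 8 ⊕ Fin 8 → ℝ := Sum.elim (fun v => (R0 v : ℝ)) (fun c => (S0 c : ℝ))

theorem good_base : Good x0 ρ0 := by
  refine ⟨?_, ?_, ?_, ?_⟩
  · rintro (v | c)
    · have := base_R v
      simp only [ρ0, Sum.elim_inl]
      exact_mod_cast this
    · have := base_S c
      simp only [ρ0, Sum.elim_inr]
      exact_mod_cast this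
  · intro v w h
    have := base_PP v w h
    simp only [ρ0, Sum.elim_inl, x0]
    exact_mod_cast this
  · intro v w h
    have := base_CC v w h
    simp only [ρ0, Sum.elim_inr, x0]
    exact_mod_cast this
  · intro v c h
    have := base_PC v c h
    simp only [ρ0, Sum.elim_inl, Sum.elim_inr, x0]
    exact_mod_cast this

theorem good_nhds : ∀ᶠ y : E × (Fin 8 ⊕ Fin 8 → ℝ) in 𝓝 (x0, ρ0), Good y.1 y.2 := by
  have hb := good_base
  have h1 : ∀ᶠ y : E × (Fin 8 ⊕ Fin 8 → ℝ) in 𝓝 (x0, ρ0), ∀ i, 0 < y.2 i := by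
    rw [eventually_all]
    intro i
    have hc : Continuous fun y : E × (Fin 8 ⊕ Fin 8 → ℝ) => y.2 i := by fun_prop
    exact (continuous_const.continuousAt).eventually_lt hc.continuousAt (hb.pos i)
  have h2 : ∀ᶠ y : E × (Fin 8 ⊕ Fin 8 → ℝ) in 𝓝 (x0, ρ0), ∀ v w, v ≠ w →
      (y.2 (.inl v) + y.2 (.inl w)) ^ 2 < ∑ k, (y.1.1 v k - y.1.1 w k) ^ 2 := by
    simp only [eventually_all]
    intro v w h
    have hc1 : Continuous fun y : E × (Fin 8 ⊕ Fin 8 → ℝ) =>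
      (y.2 (.inl v) + y.2 (.inl w)) ^ 2 := by fun_prop
    have hc2 : Continuous fun y : E × (Fin 8 ⊕ Fin 8 → ℝ) =>
      ∑ k, (y.1.1 v k - y.1.1 w k) ^ 2 := by fun_prop
    exact hc1.continuousAt.eventually_lt hc2.continuousAt (hb.pp v w h)
  have h3 : ∀ᶠ y : E × (Fin 8 ⊕ Fin 8 → ℝ) in 𝓝 (x0, ρ0), ∀ v w, v ≠ w →
      (y.2 (.inr v) + y.2 (.inr w)) ^ 2 < ∑ k, (y.1.2 v k - y.1.2 w k) ^ 2 := by
    simp only [eventually_all]
    intro v w h
    have hc1 : Continuous fun y : E × (Fin 8 ⊕ Fin 8 → ℝ) =>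
      (y.2 (.inr v) + y.2 (.inr w)) ^ 2 := by fun_prop
    have hc2 : Continuous fun y : E × (Fin 8 ⊕ Fin 8 → ℝ) =>
      ∑ k, (y.1.2 v k - y.1.2 w k) ^ 2 := by fun_prop
    exact hc1.continuousAt.eventually_lt hc2.continuousAt (hb.cc v w h)
  have h4 : ∀ᶠ y : E × (Fin 8 ⊕ Fin 8 → ℝ) in 𝓝 (x0, ρ0), ∀ v c, (∀ s, nb v s ≠ c) →
      (y.2 (.inl v) + y.2 (.inr c)) ^ 2 < ∑ k, (y.1.1 v k - y.1.2 c k) ^ 2 := by
    simp only [eventually_all]
    intro v c h
    have hc1 : Continuous fun y : E × (Fin 8 ⊕ Fin 8 → ℝ) =>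
      (y.2 (.inl v) + y.2 (.inr c)) ^ 2 := by fun_prop
    have hc2 : Continuous fun y : E × (Fin 8 ⊕ Fin 8 → ℝ) =>
      ∑ k, (y.1.1 v k - y.1.2 c k) ^ 2 := by fun_prop
    exact hc1.continuousAt.eventually_lt hc2.continuousAt (hb.pc v c h)
  filter_upwards [h1, h2, h3, h4] with y a b c d
  exact ⟨a, b, c, d⟩

/-- Squared sums of radii on the forty contacts. -/
def Tm (ρ : Fin 8 ⊕ Fin 8 → ℝ) : F := fun v s => (ρ (.inl v) + ρ (.inr (nb v s))) ^ 2

theorem continuous_Tm : Continuous Tm := by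
  unfold Tm
  fun_prop

theorem smap_base : smap (x0, 0) = Tm ρ0 := by
  funext v s
  have := base_contact v s
  simp only [smap, Tm, ρ0, dmap, x0, zero_smul, add_zero, Sum.elim_inl, Sum.elim_inr]
  exact_mod_cast this

theorem e74_apply (v : Fin 8) (s : Fin 5) (h : ¬ (v = 7 ∧ s = 4)) : e74 v s = 0 := by
  unfold e74
  by_cases hv : v = 7
  · subst hv
    have hs : s ≠ 4 := fun hs => h ⟨rfl, hs⟩
    simp [hs]
  · simp [hv]

theorem e74_self : e74 7 4 = 1 := by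
  simp [e74]

/-- In a good configuration thirty-nine contacts force the fortieth. -/
theorem last_contact (x : E) (ρ : Fin 8 ⊕ Fin 8 → ℝ) (hg : Good x ρ)
    (h : ∀ v s, ¬ (v = 7 ∧ s = 4) → dmap x v s = Tm ρ v s) : dmap x 7 4 = Tm ρ 7 4 := by
  have key := closing x.1 x.2 (fun v => ρ (.inl v)) (fun c => ρ (.inr c)) ?_ ?_ ?_ ?_
  · simp only [T] at key
    simp only [dmap, Tm]
    have : nb 7 4 = 7 := by decide
    rw [this]
    linarith
  · intro v s hvs
    have := h v s hvs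
    simp only [dmap, Tm] at this
    simp only [T]
    linarith
  · intro v c hc
    have := hg.pc v c hc
    simp only [T]
    intro h0
    linarith
  · have h1 := hg.pp 0 4 (by decide)
    have h2 := hg.pos (.inl 0)
    have h3 := hg.pos (.inl 4)
    simp only [G]
    intro h0
    nlinarith
  · intro h0
    have h1 := hg.cc 0 1 (by decide)
    have h2 := hg.pos (.inr 0)
    have h3 := hg.pos (.inr 1)
    rw [h0] at h1
    simp only [sub_self] at h1
    norm_num at h1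
    nlinarith

theorem surj_base : (dsmap x0).range = ⊤ := by
  by_contra hne
  obtain ⟨φ, hφ, hann⟩ := exists_weight (dsmap x0) hne
  apply hφ
  have h1 : ∀ δ, ∑ v, ∑ s, φ v s * ddmap x0 δ v s = 0 := by
    intro δ
    have := hann (δ, 0)
    simpa [dsmap_apply] using this
  have h2 : φ 7 4 = 0 := by
    have := hann (0, 1)
    rw [dsmap_apply] at this
    simp only [map_zero, one_smul, zero_add] at this
    rw [Finset.sum_eq_single 7, Finset.sum_eq_single 4] at this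
    · rw [e74_self] at this
      linarith
    · intro s _ hs
      rw [e74_apply 7 s (fun h => hs h.2), mul_zero]
    · simp
    · intro v _ hv
      apply Finset.sum_eq_zero
      intro s _
      rw [e74_apply v s (fun h => hv h.1), mul_zero]
    · simp
  exact base_noStress φ (equilibrium_left x0 φ h1) (equilibrium_right x0 φ h1) h2

theorem exists_generic : ∃ (x : E) (ρ : Fin 8 ⊕ Fin 8 → ℝ), AlgebraicIndependent ℚ ρ ∧ Good x ρ ∧
    (∀ v s, dmap x v s = Tm ρ v s) ∧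
    ∃ φ : F, φ ≠ 0 ∧ ∀ δ, ∑ v, ∑ s, φ v s * ddmap x δ v s = 0 := by
  have hn := good_nhds
  rw [Filter.Eventually, mem_nhds_prod_iff'] at hn
  obtain ⟨W, N, hWo, hxW, hNo, hρN, hWN⟩ := hn
  have hgood : ∀ x ∈ W, ∀ ρ ∈ N, Good x ρ := by
    intro x hx ρ hρ
    have h := hWN (show (x, ρ) ∈ W ×ˢ N from ⟨hx, hρ⟩)
    simpa using h
  -- the image of a neighbourhood
  have hmap := (hasStrictFDerivAt_smap (x0, 0)).map_nhds_eq_of_surj surj_base
  have hWn : W ×ˢ (Set.univ : Set ℝ) ∈ 𝓝 ((x0, 0) : E × ℝ) :=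
    prod_mem_nhds (hWo.mem_nhds hxW) univ_mem
  have himg : smap '' (W ×ˢ (Set.univ : Set ℝ)) ∈ 𝓝 (Tm ρ0) := by
    rw [← smap_base, ← hmap]
    exact image_mem_map hWn
  have hpre : Tm ⁻¹' (smap '' (W ×ˢ (Set.univ : Set ℝ))) ∈ 𝓝 ρ0 :=
    continuous_Tm.continuousAt.preimage_mem_nhds himg
  have hN' : N ∩ Tm ⁻¹' (smap '' (W ×ˢ (Set.univ : Set ℝ))) ∈ 𝓝 ρ0 :=
    inter_mem (hNo.mem_nhds hρN) hpre
  obtain ⟨ρ, hρA, hρ⟩ := (dense_algebraicIndependent (ι := Fin 8 ⊕ Fin 8)).inter_nhds_nonempty hN'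
  obtain ⟨hρN', ⟨x, t⟩, ⟨hxW', -⟩, hxt⟩ := hρ
  have hg := hgood x hxW' ρ hρN'
  have h39 : ∀ v s, ¬ (v = 7 ∧ s = 4) → dmap x v s = Tm ρ v s := by
    intro v s hvs
    rw [← hxt]
    simp [smap, e74_apply v s hvs]
  have h40 := last_contact x ρ hg h39
  have hall : ∀ v s, dmap x v s = Tm ρ v s := by
    intro v s
    by_cases hvs : v = 7 ∧ s = 4
    · rw [hvs.1, hvs.2]; exact h40
    · exact h39 v s hvs
  refine ⟨x, ρ, hρA, hg, hall, exists_weight (ddmap x) ?_⟩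
  intro hsurj
  have hmap2 := (hasStrictFDerivAt_dmap x).map_nhds_eq_of_surj hsurj
  have himg2 : dmap '' W ∈ 𝓝 (dmap x) := by
    rw [← hmap2]
    exact image_mem_map (hWo.mem_nhds hxW')
  have hcont : ContinuousAt (fun ε : ℝ => dmap x + ε • e74) 0 := by
    have : Continuous (fun ε : ℝ => dmap x + ε • e74) := by fun_prop
    exact this.continuousAt
  have hpre2 : ∀ᶠ ε : ℝ in 𝓝 0, dmap x + ε • e74 ∈ dmap '' W := by
    apply hcont.eventually_mem
    simpa using himg2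
  have hpre3 : ∀ᶠ ε : ℝ in 𝓝[≠] 0, dmap x + ε • e74 ∈ dmap '' W := hpre2.filter_mono nhdsWithin_le_nhds
  obtain ⟨ε, hε, hε0⟩ := (hpre3.and self_mem_nhdsWithin).exists
  obtain ⟨x', hx'W, hx'⟩ := hε
  have hg' := hgood x' hx'W ρ hρN'
  have h39' : ∀ v s, ¬ (v = 7 ∧ s = 4) → dmap x' v s = Tm ρ v s := by
    intro v s hvs
    rw [hx', ← h39 v s hvs]
    simp [e74_apply v s hvs]
  have h40' := last_contact x' ρ hg' h39'
  rw [hx'] at h40'
  simp only [Pi.add_apply, Pi.smul_apply, e74_self, h40, smul_eq_mul, mul_one] at h40'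
  apply hε0
  simp only [Set.mem_singleton_iff]
  linarith

end Pool.Agent.Lib.Helper22
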